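import Pool.Agent.Helper39.BI.Fun3

/-!
# A Bergman inner function in `A^2_1` that is not the derivative of a bounded function

There is a 1-generated invariant subspace of the weighted Bergman space `A^2_1` of the unit disc
whose Bergman inner function is not the derivative of any bounded holomorphic function.
-/

namespace Pool.Agent.Results.MP_6e4f46_an.UnboundedPrimitive

open MeasureTheory Set Metric Filter Topology
open scoped ComplexConjugate

/-- The measure `dA₁ = 2 (1 - |z|²) dA` on the unit disc, where `dA = dx dy / π`. -/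
noncomputable def dA1 : Measure ℂ :=
  (volume.restrict (ball (0 : ℂ) 1)).withDensity
    fun z => ENNReal.ofReal (2 * (1 - ‖z‖ ^ 2) / Real.pi)

/-- Membership in the weighted Bergman space `A²₁`: holomorphic on the unit disc and square
integrable for `dA₁`. (Only the values on the unit disc matter.) -/
def InA (f : ℂ → ℂ) : Prop :=
  DifferentiableOn ℂ f (ball (0 : ℂ) 1) ∧ Integrable (fun z => ‖f z‖ ^ 2) dA1

/-- The norm of `A²₁`. -/
noncomputable def nrm (f : ℂ → ℂ) : ℝ := Real.sqrt (∫ z, ‖f z‖ ^ 2 ∂dA1)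

/-- `[H]`: the closure in `A²₁` of the polynomial multiples of `H`. -/
def gen (H : ℂ → ℂ) : Set (ℂ → ℂ) :=
  {f | InA f ∧ ∀ ε : ℝ, 0 < ε → ∃ p : Polynomial ℂ, nrm (fun z => f z - H z * p.eval z) < ε}

/-- `φ` is a Bergman inner function of `X`: with `k` the smallest order of vanishing at `0` among
the functions of `X`, `φ` solves the extremal problem `sup {Re f^(k)(0) : f ∈ X, ‖f‖ ≤ 1}`. -/
def IsBergmanInner (X : Set (ℂ → ℂ)) (φ : ℂ → ℂ) : Prop :=
  ∃ k : ℕ, (∀ f ∈ X, ∀ j < k, iteratedDeriv j f 0 = 0) ∧ (∃ f ∈ X, iteratedDeriv k f 0 ≠ 0) ∧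
    φ ∈ X ∧ nrm φ ≤ 1 ∧
    ∀ f ∈ X, nrm f ≤ 1 → (iteratedDeriv k f 0).re ≤ (iteratedDeriv k φ 0).re

lemma dA1_eq : dA1 = Pool.Agent.Helper39.BI.dA1 := rfl

open Pool.Agent.Helper39.BI (ph GG ph_zero ph_diff memLp_ph memLp_pow orth eval_bound ker
  ker_memLp inner_toLp norm_toLp_sq ae_ball hasDeriv_GG GG_real)

lemma InA.memLp {f : ℂ → ℂ} (hf : InA f) : MemLp f 2 Pool.Agent.Helper39.BI.dA1 := by
  have hm : AEStronglyMeasurable f Pool.Agent.Helper39.BI.dA1 :=
    (hf.1.continuousOn.aestronglyMeasurable measurableSet_ball).mono_ac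
      (withDensity_absolutelyContinuous _ _)
  exact (memLp_two_iff_integrable_sq_norm hm).2 hf.2

lemma inA_of_memLp {f : ℂ → ℂ} (hd : DifferentiableOn ℂ f (ball (0 : ℂ) 1))
    (hf : MemLp f 2 Pool.Agent.Helper39.BI.dA1) : InA f :=
  ⟨hd, (memLp_two_iff_integrable_sq_norm hf.1).1 hf⟩

lemma nrm_eq {f : ℂ → ℂ} (hf : MemLp f 2 Pool.Agent.Helper39.BI.dA1) : nrm f = ‖hf.toLp‖ := by
  unfold nrm
  rw [dA1_eq, ← norm_toLp_sq hf, Real.sqrt_sq (norm_nonneg _)]

lemma nrm_smul (c : ℂ) (f : ℂ → ℂ) : nrm (fun z => c * f z) = ‖c‖ * nrm f := by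
  unfold nrm
  simp only [norm_mul, mul_pow]
  rw [integral_const_mul, Real.sqrt_mul (by positivity), Real.sqrt_sq (norm_nonneg _)]

/-- the generator as an element of `L²` -/
lemma hph : MemLp ph 2 Pool.Agent.Helper39.BI.dA1 := memLp_ph.1

lemma inA_ph : InA ph := inA_of_memLp ph_diff hph

lemma nph_pos : 0 < nrm ph := by
  rw [nrm_eq hph]
  by_contra h
  have h0 : ‖hph.toLp‖ = 0 := le_antisymm (not_lt.1 h) (norm_nonneg _)
  have := eval_bound ph_diff hph
  rw [h0, mul_zero, ph_zero, norm_one] at this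
  linarith

lemma integrable_mono (n : ℕ) :
    Integrable (fun z => z ^ n * ph z * conj (ph z)) Pool.Agent.Helper39.BI.dA1 := by
  obtain ⟨h1, -⟩ := memLp_pow n
  have h := L2.integrable_inner (𝕜 := ℂ) hph.toLp h1.toLp
  refine h.congr ?_
  filter_upwards [hph.coeFn_toLp, h1.coeFn_toLp] with z e1 e2
  rw [e1, e2, RCLike.inner_apply]

/-- `⟨φ q, φ⟩ = q(0) ‖φ‖²` -/
lemma int_poly (q : Polynomial ℂ) :
    ∫ z, (ph z * q.eval z) * conj (ph z) ∂Pool.Agent.Helper39.BI.dA1 =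
      q.eval 0 * ((nrm ph ^ 2 : ℝ) : ℂ) := by
  have h1 : ∀ z, (ph z * q.eval z) * conj (ph z) =
      ∑ i ∈ Finset.range (q.natDegree + 1), q.coeff i * (z ^ i * ph z * conj (ph z)) := by
    intro z
    rw [Polynomial.eval_eq_sum_range, Finset.mul_sum, Finset.sum_mul]
    refine Finset.sum_congr rfl fun i _ => ?_
    ring
  simp only [h1]
  rw [integral_finsetSum _ fun i _ => (integrable_mono i).const_mul _]
  rw [Finset.sum_eq_single 0]
  · rw [integral_const_mul]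
    simp only [pow_zero, one_mul]
    rw [← Polynomial.coeff_zero_eq_eval_zero]
    congr 1
    rw [nrm_eq hph, norm_toLp_sq hph, ← integral_complex_ofReal]
    congr 1; ext z
    rw [Complex.mul_conj']; push_cast; rfl
  · intro i _ hi
    rw [integral_const_mul, orth i (Nat.one_le_iff_ne_zero.2 hi), mul_zero]
  · intro h; simp at h

/-- for `f ∈ [φ]`: `⟨f, φ⟩ = f(0) ‖φ‖²` -/
lemma inner_gen {f : ℂ → ℂ} (hf : f ∈ gen ph) :
    inner ℂ hph.toLp (hf.1.memLp).toLp = f 0 * ((nrm ph ^ 2 : ℝ) : ℂ) := by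
  set K := ‖ker_memLp.toLp‖ with hK
  have key : ∀ ε : ℝ, 0 < ε → ‖inner ℂ hph.toLp (hf.1.memLp).toLp - f 0 * ((nrm ph ^ 2 : ℝ) : ℂ)‖ ≤
      (nrm ph + K * nrm ph ^ 2) * ε := by
    intro ε hε
    obtain ⟨q, hq⟩ := hf.2 ε hε
    -- `φ q` is in `L²`
    have hpq : MemLp (fun z => ph z * q.eval z) 2 Pool.Agent.Helper39.BI.dA1 := by
      obtain ⟨C, hC⟩ := (isCompact_closedBall (0 : ℂ) 1).exists_bound_of_continuousOn
        (q.continuous.continuousOn)
      refine MemLp.of_le_mul (c := C) hph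
        (hph.1.mul q.continuous.aestronglyMeasurable) ?_
      filter_upwards [ae_ball] with z hz
      rw [norm_mul, mul_comm]
      exact mul_le_mul_of_nonneg_right (hC z (ball_subset_closedBall hz)) (norm_nonneg _)
    have hd : MemLp (fun z => f z - ph z * q.eval z) 2 Pool.Agent.Helper39.BI.dA1 :=
      (hf.1.memLp).sub hpq
    have hdd : DifferentiableOn ℂ (fun z => f z - ph z * q.eval z) (ball 0 1) :=
      hf.1.1.sub (ph_diff.mul q.differentiable.differentiableOn)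
    have e1 : inner ℂ hph.toLp hpq.toLp = q.eval 0 * ((nrm ph ^ 2 : ℝ) : ℂ) := by
      rw [inner_toLp, int_poly]
    have e2 : inner ℂ hph.toLp hd.toLp =
        inner ℂ hph.toLp (hf.1.memLp).toLp - inner ℂ hph.toLp hpq.toLp := by
      rw [← inner_sub_right]
      congr 1
    have e3 : inner ℂ hph.toLp (hf.1.memLp).toLp - f 0 * ((nrm ph ^ 2 : ℝ) : ℂ) =
        inner ℂ hph.toLp hd.toLp - (f 0 - ph 0 * q.eval 0) * ((nrm ph ^ 2 : ℝ) : ℂ) := by
      rw [e2, e1, ph_zero]; ring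
    have b1 : ‖inner ℂ hph.toLp hd.toLp‖ ≤ nrm ph * ε := by
      refine (norm_inner_le_norm _ _).trans ?_
      rw [← nrm_eq hph, ← nrm_eq hd]
      exact mul_le_mul_of_nonneg_left hq.le nph_pos.le
    have b2 : ‖(f 0 - ph 0 * q.eval 0) * ((nrm ph ^ 2 : ℝ) : ℂ)‖ ≤ K * ε * nrm ph ^ 2 := by
      rw [norm_mul, Complex.norm_real, Real.norm_eq_abs, abs_of_nonneg (sq_nonneg _)]
      refine mul_le_mul_of_nonneg_right ?_ (sq_nonneg _)
      refine (eval_bound hdd hd).trans ?_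
      rw [← nrm_eq hd]
      exact mul_le_mul_of_nonneg_left hq.le (norm_nonneg _)
    rw [e3]
    refine (norm_sub_le _ _).trans ?_
    linarith
  have hpos : 0 < nrm ph + K * nrm ph ^ 2 := by
    have := nph_pos
    have : 0 ≤ K := norm_nonneg _
    positivity
  have h0 : ‖inner ℂ hph.toLp (hf.1.memLp).toLp - f 0 * ((nrm ph ^ 2 : ℝ) : ℂ)‖ ≤ 0 := by
    refine le_of_forall_pos_le_add fun δ hδ => ?_
    have := key (δ / (nrm ph + K * nrm ph ^ 2)) (by positivity)
    rw [mul_div_cancel₀ _ hpos.ne'] at this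
    linarith
  exact sub_eq_zero.1 (norm_le_zero_iff.1 h0)

/-- the normalised generator -/
noncomputable def phi : ℂ → ℂ := fun z => ((nrm ph)⁻¹ : ℂ) * ph z

lemma phi_zero : phi 0 = ((nrm ph)⁻¹ : ℂ) := by unfold phi; rw [ph_zero, mul_one]

lemma phi_diff : DifferentiableOn ℂ phi (ball 0 1) := ph_diff.const_mul _

lemma phi_memLp : MemLp phi 2 Pool.Agent.Helper39.BI.dA1 := hph.const_mul _

lemma nrm_phi : nrm phi = 1 := by
  unfold phi
  rw [nrm_smul, norm_inv, Complex.norm_real, Real.norm_eq_abs, abs_of_pos nph_pos,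
    inv_mul_cancel₀ nph_pos.ne']

lemma phi_mem : phi ∈ gen ph := by
  refine ⟨inA_of_memLp phi_diff phi_memLp, fun ε hε => ⟨Polynomial.C ((nrm ph)⁻¹ : ℂ), ?_⟩⟩
  have : (fun z => phi z - ph z * (Polynomial.C ((nrm ph)⁻¹ : ℂ)).eval z) = fun _ => 0 := by
    ext z; rw [Polynomial.eval_C]; unfold phi; ring
  rw [this]
  unfold nrm
  simpa using hε

lemma phi_re : (phi 0).re = (nrm ph)⁻¹ := by
  rw [phi_zero, ← Complex.ofReal_inv, Complex.ofReal_re]

/-- bound on `f(0)` -/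
lemma re_le {f : ℂ → ℂ} (hf : f ∈ gen ph) (hn : nrm f ≤ 1) : (f 0).re ≤ (nrm ph)⁻¹ := by
  have h1 := inner_gen hf
  have h2 : ‖inner ℂ hph.toLp (hf.1.memLp).toLp‖ ≤ nrm ph * 1 := by
    refine (norm_inner_le_norm _ _).trans ?_
    rw [← nrm_eq hph, ← nrm_eq hf.1.memLp]
    exact mul_le_mul_of_nonneg_left hn nph_pos.le
  rw [h1, norm_mul, Complex.norm_real, Real.norm_eq_abs, abs_of_nonneg (sq_nonneg _)] at h2
  have hp := nph_pos
  have h3 : (f 0).re ≤ ‖f 0‖ := Complex.re_le_norm _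
  rw [← one_div, le_div_iff₀ hp]
  have h4 : ‖f 0‖ * nrm ph ≤ 1 := by
    have : ‖f 0‖ * nrm ph * nrm ph ≤ 1 * nrm ph := by nlinarith
    exact le_of_mul_le_mul_right this hp
  nlinarith

lemma phi_inner : IsBergmanInner (gen ph) phi := by
  refine ⟨0, fun f _ j hj => absurd hj (Nat.not_lt_zero j), ⟨phi, phi_mem, ?_⟩, phi_mem,
    nrm_phi.le, ?_⟩
  · rw [iteratedDeriv_zero, phi_zero]
    exact inv_ne_zero (by exact_mod_cast nph_pos.ne')
  · intro f hf hn
    rw [iteratedDeriv_zero, iteratedDeriv_zero, phi_re]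
    exact re_le hf hn

lemma uniq {ψ : ℂ → ℂ} (hψ : IsBergmanInner (gen ph) ψ) : EqOn ψ phi (ball (0 : ℂ) 1) := by
  obtain ⟨k, hk1, -, hmem, hn, hmax⟩ := hψ
  have hk : k = 0 := by
    by_contra hk
    have := hk1 phi phi_mem 0 (Nat.pos_of_ne_zero hk)
    rw [iteratedDeriv_zero, phi_zero] at this
    exact inv_ne_zero (by exact_mod_cast nph_pos.ne') this
  subst hk
  have h1 := hmax phi phi_mem nrm_phi.le
  rw [iteratedDeriv_zero, iteratedDeriv_zero, phi_re] at h1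
  have h2 := inner_gen hmem
  set F := hph.toLp with hF
  set P := (hmem.1.memLp).toLp with hP
  have hp := nph_pos
  -- inner product with the normalised function
  have e1 : phi_memLp.toLp = ((nrm ph)⁻¹ : ℂ) • F := rfl
  have h3 : 1 ≤ (inner ℂ phi_memLp.toLp P).re := by
    rw [e1, inner_smul_left, h2]
    have : (starRingEnd ℂ) ((nrm ph)⁻¹ : ℂ) * (ψ 0 * ((nrm ph ^ 2 : ℝ) : ℂ)) =
        ((nrm ph : ℝ) : ℂ) * ψ 0 := by
      rw [← Complex.ofReal_inv, Complex.conj_ofReal]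
      have : ((nrm ph : ℝ) : ℂ) ≠ 0 := by exact_mod_cast hp.ne'
      push_cast
      field_simp
    rw [this, Complex.re_ofReal_mul]
    have := mul_le_mul_of_nonneg_left h1 hp.le
    rwa [mul_inv_cancel₀ hp.ne'] at this
  have h4 : ‖P - phi_memLp.toLp‖ ^ 2 ≤ 0 := by
    rw [@norm_sub_sq ℂ]
    have a1 : ‖P‖ ≤ 1 := by rw [← nrm_eq hmem.1.memLp]; exact hn
    have a2 : ‖phi_memLp.toLp‖ = 1 := by rw [← nrm_eq phi_memLp]; exact nrm_phi
    have a3 : RCLike.re (inner ℂ P phi_memLp.toLp) = (inner ℂ phi_memLp.toLp P).re := by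
      exact inner_re_symm (𝕜 := ℂ) P phi_memLp.toLp
    rw [a2, a3]
    have : ‖P‖ ^ 2 ≤ 1 := by nlinarith [norm_nonneg P]
    nlinarith
  have h5 : P = phi_memLp.toLp := by
    have : ‖P - phi_memLp.toLp‖ = 0 := by
      have := sq_nonneg ‖P - phi_memLp.toLp‖
      exact pow_eq_zero_iff (two_ne_zero) |>.1 (le_antisymm h4 this)
    exact sub_eq_zero.1 (norm_eq_zero.1 this)
  have h6 : ψ =ᵐ[Pool.Agent.Helper39.BI.dA1] phi := by
    have b1 := (hmem.1.memLp).coeFn_toLp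
    have b2 := phi_memLp.coeFn_toLp
    filter_upwards [b1, b2] with z c1 c2
    rw [← c1, ← c2, ← hP, h5]
  have h7 : volume.restrict (ball (0 : ℂ) 1) ≪ Pool.Agent.Helper39.BI.dA1 := by
    unfold Pool.Agent.Helper39.BI.dA1
    refine withDensity_absolutelyContinuous' (by fun_prop) ?_
    filter_upwards [ae_restrict_mem measurableSet_ball] with z hz
    rw [mem_ball_zero_iff] at hz
    rw [Ne, ENNReal.ofReal_eq_zero, not_le]
    have : 0 < 1 - ‖z‖ ^ 2 := by nlinarith [norm_nonneg z]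
    have := Real.pi_pos
    positivity
  exact Measure.eqOn_open_of_ae_eq (h7.ae_le h6) isOpen_ball hmem.1.1.continuousOn
    phi_diff.continuousOn

/-- **Answer to Q1 (negative).** There is a 1-generated invariant subspace `X = [H] ≠ {0}` of
`A²₁` whose Bergman inner function `φ` (which exists and is unique) is not the derivative of a
bounded holomorphic function on the unit disc. -/
theorem result : ∃ H : ℂ → ℂ, InA H ∧ (∃ z ∈ ball (0 : ℂ) 1, H z ≠ 0) ∧
    ∃ φ : ℂ → ℂ, IsBergmanInner (gen H) φ ∧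
      (∀ ψ : ℂ → ℂ, IsBergmanInner (gen H) ψ → EqOn ψ φ (ball (0 : ℂ) 1)) ∧
      ∀ F : ℂ → ℂ, DifferentiableOn ℂ F (ball (0 : ℂ) 1) →
        (∃ M : ℝ, ∀ z ∈ ball (0 : ℂ) 1, ‖F z‖ ≤ M) →
        ¬ ∀ z ∈ ball (0 : ℂ) 1, deriv F z = φ z := by
  refine ⟨ph, inA_ph, ⟨0, mem_ball_self one_pos, by rw [ph_zero]; exact one_ne_zero⟩, phi,
    phi_inner, fun ψ hψ => uniq hψ, ?_⟩
  rintro F hF ⟨M, hM⟩ hder
  have hp := nph_pos
  have hG : DifferentiableOn ℂ GG (ball 0 1) := fun z hz =>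
    (hasDeriv_GG hz).1.differentiableAt.differentiableWithinAt
  have h1 : DifferentiableOn ℂ (fun z => ((nrm ph : ℝ) : ℂ) * F z) (ball 0 1) := hF.const_mul _
  obtain ⟨a, ha⟩ := isOpen_ball.exists_eq_add_of_deriv_eq (convex_ball (0 : ℂ) 1).isPreconnected
    hG h1 (by
      intro z hz
      rw [(hasDeriv_GG hz).1.deriv]
      have hFz : DifferentiableAt ℂ F z := hF.differentiableAt (isOpen_ball.mem_nhds hz)
      rw [deriv_const_mul _ hFz, hder z hz]
      unfold phi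
      have : ((nrm ph : ℝ) : ℂ) ≠ 0 := by exact_mod_cast hp.ne'
      field_simp)
  obtain ⟨z, hz, hz2⟩ := GG_real (nrm ph * M + ‖a‖)
  rw [ha hz] at hz2
  have h2 : ‖((nrm ph : ℝ) : ℂ) * F z + a‖ ≤ nrm ph * M + ‖a‖ := by
    refine (norm_add_le _ _).trans ?_
    rw [norm_mul, Complex.norm_real, Real.norm_eq_abs, abs_of_pos hp]
    gcongr
    exact hM z hz
  exact absurd hz2 (not_lt.2 h2)

end Pool.Agent.Results.MP_6e4f46_an.UnboundedPrimitive
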